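import Pool.Agent.H74.LI.Defs

/-!
# Zeros of Dirichlet L-functions under dilations (MP_9f0eeb_nt): exact targets
-/

set_option autoImplicit false

open Complex MeasureTheory Set Metric

namespace Pool.Agent.H74.LI

open Pool.Agent.H23.GLH

/-- (ST) Stirling for a quotient of Gamma functions on the line `Re s = -1/2`. -/
def T_stir : Prop :=
  ∀ δ : ℂ, Near fun t =>
    Gamma (lp t + δ) / (Gamma (lp t) * cexp (δ * (Real.log t + Real.pi / 2 * I)))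

/-- (MU) Gauss multiplication with an unspecified constant. -/
def T_mult : Prop :=
  ∀ a : ℕ, 1 ≤ a → ∃ K : ℝ, 0 < K ∧ ∀ w : ℂ,
    Gamma w = K * cexp (w * Real.log a) * ∏ l ∈ Finset.range a, Gamma ((w + l) / a)

/-- (FX) asymptotics of one factor of the functional equation. -/
def T_X : Prop :=
  ∀ a : ℕ, 1 ≤ a → ∀ τ κ : ℝ, (κ = 0 ∨ κ = 1) → ∃ K : ℂ, K ≠ 0 ∧ Near fun t =>
    (Gammaℂ (wl a (lp t) + τ * I) * Complex.cos (Real.pi * (wl a (lp t) + τ * I - κ) / 2)) /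
      (K * cexp (-(Real.pi / 2 * a * lp t * I)) *
        cexp (a * lp t * Real.log (a / (2 * Real.pi))) * Gamma (lp t) ^ a *
          cexp (τ * Real.log t * I))

/-- (LF) functional equation of one Dirichlet `L`-function. -/
def T_LF : Prop :=
  ∀ π : PrimChar, ∃ (ε : ℂ) (κ : ℝ), ‖ε‖ = 1 ∧ (κ = 0 ∨ κ = 1) ∧ ∀ w : ℂ, w.im ≠ 0 →
    π.L w * (Gammaℂ w * Complex.cos (Real.pi * (w - κ) / 2)) =
      ε * cexp ((1 / 2 - w) * Real.log π.q) * (bar π).L (1 - w)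

/-- (ZE) zeros off the real axis lie in the open critical strip. -/
def T_zero : Prop :=
  ∀ (π : PrimChar) (ρ : ℂ), ρ.im ≠ 0 → π.L ρ = 0 → 0 < ρ.re ∧ ρ.re < 1

/-- (FE) functional equation of the quotient on the line `Re s = -1/2`, in asymptotic form. -/
def T_FE : Prop :=
  ∀ (c r : ℕ) (χ : PrimChar) (a : Fin r → ℕ) (ψ : Fin r → PrimChar) (τ : Fin r → ℝ), 1 ≤ c →
    (∀ i, 1 ≤ a i) → ∑ i, a i = c + 1 →
    ∃ (A : ℂ) (E : ℝ → ℂ), A ≠ 0 ∧ Near E ∧ ∀ t : ℝ, 1 ≤ t →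
      Gamma (lp t) * Nm a ψ τ (lp t) * Dn c (bar χ) (1 - lp t) =
        A * cexp (lp t * (Real.log (BB c χ a ψ) + Real.pi / 2 * I)) *
          cexp (-((∑ i, τ i : ℝ) * Real.log t * I)) * E t *
            Nm a (fun i => bar (ψ i)) (fun i => -τ i) (1 - lp t) * Dn c χ (lp t)

/-- (SR) the quotient as a Dirichlet series, and one coefficient of modulus different from 1. -/
def T_series : Prop :=
  ∀ (c r : ℕ) (χ : PrimChar) (a : Fin r → ℕ) (ψ : Fin r → PrimChar) (τ : Fin r → ℝ), 1 ≤ c →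
    (∀ i, 1 ≤ a i) → (∀ i, a i ≠ c) → ∑ i, a i = c + 1 →
    ∃ g : ℕ → ℂ, Co g ∧ g 1 = 1 ∧
      (∀ s : ℂ, 3 / 2 ≤ s.re → Dn c χ s ≠ 0 ∧ Nm a ψ τ s = Dn c χ s * ds g s) ∧
      ∀ Q : ℕ, 1 ≤ Q → ∃ k : ℕ, 1 < k ∧ k ≡ 1 [MOD Q] ∧ ‖g k‖ ≠ 1

/-- (PB) polynomial bound in right half planes. -/
def T_poly : Prop :=
  ∀ (π : PrimChar) (A : ℝ), ∃ C : ℝ, 0 < C ∧ ∀ w : ℂ, -A ≤ w.re → 1 ≤ |w.im| →
    ‖π.L w‖ ≤ C * (1 + |w.im|) ^ C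

/-- (GR) a quotient without poles has polynomial growth: abstract form. -/
def T_growth : Prop :=
  ∀ R₁ R₂ R₃ : ℝ, 0 < R₁ → R₁ < R₂ → R₂ < R₃ → ∃ C : ℝ, 0 < C ∧
    ∀ (p : ℂ) (M : ℝ) (U : Set ℂ) (D N G : ℂ → ℂ), 2 ≤ M → IsOpen U → IsPreconnected U →
      closedBall p R₃ ⊆ U → DifferentiableOn ℂ D U → DifferentiableOn ℂ N U →
      DifferentiableOn ℂ G U → (∀ s ∈ U, D s * G s = N s) →
      (∀ s ∈ closedBall p R₃, ‖D s‖ ≤ M ∧ ‖N s‖ ≤ M) → 1 / 4 ≤ ‖D p‖ →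
      ∀ s ∈ closedBall p R₁, ‖G s‖ ≤ M ^ C

/-- (QU) division when the orders permit it. -/
def T_quot : Prop :=
  ∀ (U V : Set ℂ) (D N : ℂ → ℂ), IsOpen U → IsOpen V → IsPreconnected V →
    Bornology.IsBounded U → closure U ⊆ V → DifferentiableOn ℂ D V → DifferentiableOn ℂ N V →
    (∃ p ∈ V, D p ≠ 0) →
    (∀ w ∈ closure U, D w = 0 → analyticOrderAt D w ≤ analyticOrderAt N w) →
    ∃ G : ℂ → ℂ, DifferentiableOn ℂ G U ∧ ∀ s ∈ U, D s * G s = N s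

/-- (ME) Mellin inversion for `F_N`. -/
def T_mellin : Prop :=
  ∀ g : ℕ → ℂ, Co g → ∀ (N : ℕ) (z : ℂ), 0 < z.re →
    Integrable (fun t : ℝ => Gamma (2 + N + t * I) * ds g (2 + t * I) * z ^ (-(2 + N + t * I))) ∧
    FN g N z = (1 / (2 * Real.pi) : ℝ) *
      ∫ t : ℝ, Gamma (2 + N + t * I) * ds g (2 + t * I) * z ^ (-(2 + N + t * I))

/-- (CH) Chernoff bound for the Gamma kernel. -/
def T_cher : Prop :=
  ∀ y : ℝ, 0 < y → ∃ δ C : ℝ, 0 < δ ∧ 0 < C ∧ ∀ N : ℕ, 1 ≤ N → ∀ σ : ℝ, -(1 / 2) ≤ σ → σ ≤ 2 →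
    ∀ t : ℝ, ‖Gamma (σ + N + t * I) * (1 + y * I) ^ (-(σ + N + t * I))‖ ≤
      C * Real.Gamma (σ + N) * Real.exp (-(δ * min ((t - y * N) ^ 2 / N) |t - y * N|))

/-- the integrand of the half line integral -/
noncomputable def hI (B : ℝ) (z : ℂ) (N K : ℕ) (t : ℝ) : ℂ :=
  Gamma (lp t + N) / Gamma (lp t) * cexp (lp t * (Real.log (B * K) + Real.pi / 2 * I)) *
    z ^ (-(lp t + N))

/-- (HL) the half line integrals. -/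
def T_half : Prop :=
  ∀ B : ℝ, 0 < B → ∀ κ : ℕ, 1 ≤ κ → ∃ R C : ℝ, 1 < R ∧ 0 < C ∧ ∀ N : ℕ, ∀ K : ℕ, 1 ≤ K →
    IntegrableOn (hI B (1 + B * κ * I) N K) (Ioi 0) ∧
    (K ≠ κ → ‖∫ t in Ioi (0 : ℝ), hI B (1 + B * κ * I) N K t‖ ≤
      C * N.factorial * R ^ (-(N : ℝ)) * (K : ℝ) ^ (-(1 / 2) : ℝ)) ∧
    (K = κ → ‖(∫ t in Ioi (0 : ℝ), hI B (1 + B * κ * I) N K t) - N.factorial * (B * κ)‖ ≤
      C * N.factorial * R ^ (-(N : ℝ)))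

/-- (MA) main lemma. -/
def T_main : Prop :=
  ∀ (B : ℝ) (A : ℂ) (θ : ℝ) (g g' : ℕ → ℂ) (E : ℝ → ℂ) (κ : ℕ), 0 < B → Co g → Co g' → Near E →
    1 ≤ κ → ∀ C₀ : ℝ, ∃ Cw : ℝ, 0 < Cw ∧ ∀ ε : ℝ, 0 < ε → ∃ N₀ : ℕ, ∀ N : ℕ, N₀ ≤ N →
      ∀ G : ℂ → ℂ,
      (∀ s : ℂ, -(1 / 2) ≤ s.re → s.re ≤ 2 → |s.im - B * κ * N| ≤ wd Cw N →
        DifferentiableAt ℂ G s ∧ ‖G s‖ ≤ (N : ℝ) ^ C₀) →
      (∀ t : ℝ, |t - B * κ * N| ≤ wd Cw N → G (2 + t * I) = ds g (2 + t * I)) →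
      (∀ t : ℝ, |t - B * κ * N| ≤ wd Cw N → Gamma (lp t) * G (lp t) =
        A * cexp (lp t * (Real.log B + Real.pi / 2 * I)) * cexp (-(θ * Real.log t * I)) * E t *
          ds g' (1 - lp t)) →
      ‖FN g N (1 + B * κ * I) / N.factorial -
        (B / (2 * Real.pi) : ℝ) * A * cexp (-(θ * Real.log (B * κ * N) * I)) * g' κ‖ ≤ ε

/-- (AS) windows. -/
def T_window : Prop :=
  ∀ (c r : ℕ) (χ : PrimChar) (a : Fin r → ℕ) (ψ : Fin r → PrimChar) (τ : Fin r → ℝ), 1 ≤ c →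
    (∀ i, 1 ≤ a i) → (∀ i, a i ≠ c) → ∑ i, a i = c + 1 →
    ∃ (α β C : ℝ) (N₀ : ℕ), 0 < α ∧ α < β ∧ 0 < C ∧ ∀ N : ℕ, N₀ ≤ N →
      ∃ ρ : ℂ, Exc c χ a ψ τ ρ ∧
        (|ρ.im - α * N| ≤ wd C N ∨ |ρ.im - β * N| ≤ wd C N)

/-- (CT) final statement: short windows and the count. -/
def T_final : Prop :=
  ∀ (c r : ℕ) (χ : PrimChar) (a : Fin r → ℕ) (ψ : Fin r → PrimChar) (τ : Fin r → ℝ), 1 ≤ c →
    (∀ i, 1 ≤ a i) → (∀ i, a i ≠ c) → ∑ i, a i = c + 1 →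
    (∃ (α β C T₀ : ℝ), 0 < α ∧ α < β ∧ 0 < C ∧ ∀ T : ℝ, T₀ ≤ T →
      ∃ ρ : ℂ, Exc c χ a ψ τ ρ ∧
        (|ρ.im - α * T| ≤ C * Real.sqrt (T * Real.log T) ∨
          |ρ.im - β * T| ≤ C * Real.sqrt (T * Real.log T))) ∧
    ∃ (δ T₀ : ℝ), 0 < δ ∧ ∀ T : ℝ, T₀ ≤ T → ∃ Z : Finset ℂ,
      δ * Real.sqrt (T / Real.log T) ≤ Z.card ∧
        ∀ ρ ∈ Z, 0 < ρ.im ∧ ρ.im ≤ T ∧ Exc c χ a ψ τ ρ

end Pool.Agent.H74.LI
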