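import Pool.Agent.H23.GLH.Defs
import Pool.Agent.H23.GLH.Dirichlet

/-!
# Zeros of Dirichlet L-functions under dilations (MP_9f0eeb_nt): definitions
-/

set_option autoImplicit false

open Complex MeasureTheory Set

namespace Pool.Agent.H74.LI

open Pool.Agent.H23.GLH

/-- `1/2 + a (s - 1/2)` -/
noncomputable def wl (a : ℕ) (s : ℂ) : ℂ := 1 / 2 + a * (s - 1 / 2)

/-- the complex conjugate (inverse) character -/
noncomputable def bar (π : PrimChar) : PrimChar :=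
  letI := π.q_ne
  ⟨π.q, π.q_ne, π.χ⁻¹, isPrimitive_inv π.χ π.prim⟩

/-- the product of the numerator `L`-functions -/
noncomputable def Nm {r : ℕ} (a : Fin r → ℕ) (ψ : Fin r → PrimChar) (τ : Fin r → ℝ) (s : ℂ) : ℂ :=
  ∏ i, (ψ i).L (wl (a i) s + τ i * I)

/-- the denominator `L`-function -/
noncomputable def Dn (c : ℕ) (χ : PrimChar) (s : ℂ) : ℂ := χ.L (wl c s)

/-- `F_N(z) = ∑ g(k) k^N e^{-kz}` -/
noncomputable def FN (g : ℕ → ℂ) (N : ℕ) (z : ℂ) : ℂ :=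
  ∑' k : ℕ, g k * (k : ℂ) ^ N * cexp (-(k * z))

/-- the Dirichlet series `∑ g(k) k^{-s}` -/
noncomputable def ds (g : ℕ → ℂ) (s : ℂ) : ℂ := ∑' k : ℕ, g k * (k : ℂ) ^ (-s)

/-- coefficient sequences with `∑ |g(k)| k^{-3/2} < ∞` -/
structure Co (g : ℕ → ℂ) : Prop where
  zero : g 0 = 0
  sum : Summable fun k : ℕ => ‖g k‖ * (k : ℝ) ^ (-(3 / 2) : ℝ)

/-- `u(t) = 1 + O(1/t)` as `t → ∞` -/
def Near (u : ℝ → ℂ) : Prop := ∃ C t₀ : ℝ, 0 < t₀ ∧ ∀ t : ℝ, t₀ ≤ t → ‖u t - 1‖ ≤ C / t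

/-- the point `-1/2 + i t` -/
noncomputable def lp (t : ℝ) : ℂ := -(1 / 2) + t * I

/-- half width of the windows -/
noncomputable def wd (C : ℝ) (N : ℕ) : ℝ := C * Real.sqrt (N * Real.log N)

/-- order of vanishing at `ρ` of the numerator side -/
noncomputable def ordN {r : ℕ} (c : ℕ) (a : Fin r → ℕ) (ψ : Fin r → PrimChar) (τ : Fin r → ℝ)
    (ρ : ℂ) : ℕ∞ :=
  ∑ i, analyticOrderAt (ψ i).L (1 / 2 + ((a i : ℂ) / c) * (ρ - 1 / 2) + τ i * I)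

/-- exceptional zeros of `L(s, χ)` -/
def Exc {r : ℕ} (c : ℕ) (χ : PrimChar) (a : Fin r → ℕ) (ψ : Fin r → PrimChar) (τ : Fin r → ℝ)
    (ρ : ℂ) : Prop :=
  0 < ρ.re ∧ ρ.re < 1 ∧ χ.L ρ = 0 ∧ ordN c a ψ τ ρ < analyticOrderAt χ.L ρ

/-- the constant `B = 2π c^c q^c / ∏ (a_i q_i)^{a_i}` -/
noncomputable def BB {r : ℕ} (c : ℕ) (χ : PrimChar) (a : Fin r → ℕ) (ψ : Fin r → PrimChar) : ℝ :=
  2 * Real.pi * ((c * χ.q : ℕ) : ℝ) ^ c / ∏ i, ((a i * (ψ i).q : ℕ) : ℝ) ^ (a i)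

end Pool.Agent.H74.LI
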